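import Pool.Agent.U631.CF.Eleven

/-!
# Cubic fourfolds with planes whose residual classes are independent modulo two

Let `X` be a smooth cubic fourfold, let `r` be the rank of the group of its Hodge classes in
`H^4(X, ℤ)`, and let `P 1, ..., P n` be planes in `X` such that the classes `h - P i` (the classes of
the residual quadric surfaces) are linearly independent modulo `2`.

1. If `n + r ≥ 24`, then for one of the planes `P i` there is a Hodge class `T` with
   `T.(h - P i)` odd, and `X` is rational and has an associated K3 surface.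
2. If `n ≥ 11`, then two of the planes `P i` have an even intersection number (they are disjoint), and
   `X` is rational and has an associated K3 surface.

In both cases both sides of the conjecture of Hassett hold for `X`. For instance three such planes
suffice if `r = 21`, and five if `r = 19`; the starting file `ManyPlanes` needs at least `2 ^ (23 - r)`
planes.

Idea of the proof. 1. A basis of the group of Hodge classes is independent modulo `2`, and the
intersection form is nondegenerate modulo `2`. So if all `T.(h - P i)` are even then `n + r ≤ 23`.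
2. Suppose that all `P i.P j` are odd. Then the classes `u i = 3 h - P i` satisfy `h.u i = 8`,
`u i.u i = 24`, and `u i.u j` is even. So they span a totally singular subspace of the quadratic form
`x.x / 2` modulo `2` on the orthogonal complement of `h`. This form has dimension `22` and minus type
(`Pool/Agent/U631/CF/Eleven.lean`), so `n ≤ 10`.
-/

set_option autoImplicit false

namespace Pool.Agent.Results.MP_ffd2c1_ag.IndependentPlanes

open Pool.Agent.Y95.Q Pool.Agent.Y95.Q.H4 Pool.Agent.N801.CF Pool.Agent.U631.CF Matrix Module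

variable {X : CubicFourfold} {H : H4 X}

/-- two families which are orthogonal modulo `p` -/
lemma orth_le (hH : H.IsCohomology) {p : ℕ} [Fact p.Prime] {n m : ℕ} {u : Fin n → Fin 23 → ℤ}
    {w : Fin m → Fin 23 → ℤ} (hu : LinearIndependent (ZMod p) fun i => rd (ZMod p) (u i))
    (hw : LinearIndependent (ZMod p) fun i => rd (ZMod p) (w i))
    (huw : ∀ i j, ((H.ip (u i) (w j) : ℤ) : ZMod p) = 0) : n + m ≤ 23 := by
  have h1 : (MM (ZMod p) u).rank = n := by
    have := LinearIndependent.rank_matrix (M := MM (ZMod p) u) hu
    rwa [Fintype.card_fin] at this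
  have h2 := LinearMap.finrank_range_add_finrank_ker (MM (ZMod p) u).mulVecLin
  have h3 : finrank (ZMod p) (LinearMap.range (MM (ZMod p) u).mulVecLin) = n := h1
  rw [h3, finrank_fin_fun] at h2
  have hinj : Function.Injective (BM (ZMod p) H).mulVec := by
    rw [Matrix.mulVec_injective_iff_isUnit, Matrix.isUnit_iff_isUnit_det]
    exact BM_unit hH
  have h4 : LinearIndependent (ZMod p) fun i =>
      (BM (ZMod p) H).mulVecLin (rd (ZMod p) (w i)) := by
    refine hw.map' (BM (ZMod p) H).mulVecLin ?_
    rw [LinearMap.ker_eq_bot]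
    exact hinj
  have hmem : ∀ i, (BM (ZMod p) H).mulVecLin (rd (ZMod p) (w i)) ∈
      LinearMap.ker (MM (ZMod p) u).mulVecLin := by
    intro i
    rw [LinearMap.mem_ker]
    ext j
    change (MM (ZMod p) u *ᵥ (BM (ZMod p) H *ᵥ rd (ZMod p) (w i))) j = 0
    rw [MM_vec, huw]
  let g : Fin m → LinearMap.ker (MM (ZMod p) u).mulVecLin := fun i => ⟨_, hmem i⟩
  have h5 : LinearIndependent (ZMod p) g := by
    refine LinearIndependent.of_comp (LinearMap.ker (MM (ZMod p) u).mulVecLin).subtype ?_
    exact h4
  have h6 := h5.fintype_card_le_finrank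
  rw [Fintype.card_fin] at h6
  omega

lemma plane (hH : H.IsCohomology) (P : X.Plane) :
    H.IsHodge (H.cl P) ∧ H.ip H.h (H.cl P) = 1 ∧ H.ip (H.cl P) (H.cl P) = 3 := by
  obtain ⟨h1, h2, h3⟩ := (hH.cl_range _).1 ⟨P, rfl⟩
  exact ⟨h1, (hH.comm _ _).trans h2, h3⟩

/-- an odd class for a plane -/
lemma of_odd (hH : H.IsCohomology) {P : X.Plane} {T : Fin 23 → ℤ} (hT : H.IsHodge T)
    (hodd : Odd (H.ip T (H.h - H.cl P))) : X.IsRational ∧ H.HasK3 :=
  ⟨hH.hassett P T hT hodd, hH.hasK3 ((hH.cl_range _).1 ⟨P, rfl⟩) hT hodd⟩

/-- Let `X` be a smooth cubic fourfold, and let `P i` be `n` planes in `X` such that the classes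
`h - P i` are linearly independent modulo `2`.
1. If `n + r ≥ 24`, where `r` is the rank of the group of the Hodge classes, then some Hodge class has
an odd intersection number with some `h - P i`, and `X` is rational and has an associated K3 surface.
2. If `n ≥ 11`, then two of the planes have an even intersection number, and `X` is rational and has
an associated K3 surface. -/
theorem result {X : CubicFourfold} {H : H4 X} (hH : H.IsCohomology) {n : ℕ} (P : Fin n → X.Plane)
    (hP : LinearIndependent (ZMod 2) fun i =>
      (fun k => (((H.h - H.cl (P i)) k : ℤ) : ZMod 2) : Fin 23 → ZMod 2)) :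
    (24 ≤ n + H.rank → (∃ i T, H.IsHodge T ∧ Odd (H.ip T (H.h - H.cl (P i)))) ∧
      X.IsRational ∧ H.HasK3) ∧
    (11 ≤ n → (∃ i j, Even (H.ip (H.cl (P i)) (H.cl (P j)))) ∧ X.IsRational ∧ H.HasK3) := by
  have : Fact (Nat.Prime 2) := ⟨Nat.prime_two⟩
  constructor
  · intro hn
    have h1 : ∃ i T, H.IsHodge T ∧ Odd (H.ip T (H.h - H.cl (P i))) := by
      by_contra hcon
      push Not at hcon
      obtain ⟨u, hu, hb⟩ := select_all (H := H) (p := 2) (n := H.rank) le_rfl
      have h1 := orth_le hH (p := 2) hb hP (fun i j => by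
        have e1 := Int.not_odd_iff_even.1 (hcon j (u i) (hu i))
        exact (ZMod.intCast_zmod_eq_zero_iff_dvd _ 2).2 (even_iff_two_dvd.1 e1))
      omega
    obtain ⟨i, T, hT, hodd⟩ := h1
    exact ⟨⟨i, T, hT, hodd⟩, of_odd hH hT hodd⟩
  · intro hn
    have h1 : ∃ i j, Even (H.ip (H.cl (P i)) (H.cl (P j))) := by
      by_contra hcon
      push Not at hcon
      refine no_eleven hH (u := fun i => (3 : ℤ) • H.h - H.cl (P (Fin.castLE hn i))) ?_
        (fun i => ⟨1, ?_⟩) (fun i => ⟨6, ?_⟩) (fun i j => ?_)
      · have h2 : (fun i : Fin 11 => rd (ZMod 2) ((3 : ℤ) • H.h - H.cl (P (Fin.castLE hn i)))) =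
            (fun i => (fun k => (((H.h - H.cl (P i)) k : ℤ) : ZMod 2) : Fin 23 → ZMod 2)) ∘
              Fin.castLE hn := by
          funext i k
          have h3 : (3 : ZMod 2) = 1 := rfl
          simp only [rd, Function.comp, Pi.sub_apply, Pi.smul_apply, smul_eq_mul]
          push_cast
          rw [h3, one_mul]
        rw [h2]
        exact hP.comp _ (Fin.castLE_injective hn)
      · simp only [ip_sub_right, ip_smul_right, hH.h_self, (plane hH _).2.1]
        norm_num
      · simp only [ip_sub_right, ip_sub_left, ip_smul_right, ip_smul_left, hH.h_self,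
          hH.comm (H.cl _) H.h, (plane hH _).2.1, (plane hH _).2.2]
        norm_num
      · obtain ⟨m, hm⟩ := Int.not_even_iff_odd.1 (hcon (Fin.castLE hn i) (Fin.castLE hn j))
        refine ⟨11 + m, ?_⟩
        simp only [ip_sub_right, ip_sub_left, ip_smul_right, ip_smul_left, hH.h_self,
          hH.comm (H.cl _) H.h, (plane hH _).2.1]
        rw [hm]
        ring
    obtain ⟨i, j, hij⟩ := h1
    refine ⟨⟨i, j, hij⟩, of_odd hH (P := P i) (T := H.cl (P j)) (plane hH _).1 ?_⟩
    rw [ip_sub_right, hH.comm _ H.h, (plane hH _).2.1, hH.comm (H.cl (P j)) (H.cl (P i))]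
    exact odd_one.sub_even hij

end Pool.Agent.Results.MP_ffd2c1_ag.IndependentPlanes
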