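import Pool.Agent.U141.CF.Dense

/-!
# The degrees of the K3 surfaces associated to a cubic fourfold

Let `X` be a smooth cubic fourfold, `A(X)` the group of its Hodge classes in `H^4(X, ℤ)`, and for `v`
in `A(X)` let `disc v` be the discriminant of the group spanned by `h` and `v`. By a theorem of
Hassett there are a polarised K3 surface `(S, L)` of degree `d` and a primitive isometric
embedding of Hodge structures of `H^2(S, ℤ)_pr` in `H^4(X, ℤ)_pr` if and only if `X` lies in the divisor
`C_d` and `d` is admissible (condition (**)).

**How many degrees?** A smooth cubic fourfold lies in `C_d` for no, for exactly one or for infinitely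
many admissible `d`. More exactly, if it lies in `C_d` for some admissible `d`, then there is only
one such `d` if the rank of `A(X)` is two, and there are infinitely many if it is at least three. So
the only cubic fourfolds with an associated K3 surface whose degree is unique are the very general
ones in the divisors `C_d`.

Known facts which are used: the properties of `H^4(X, ℤ)` collected in `H4.IsCohomology` (see
`Pool/Agent/Y95/Q/Defs.lean`).

Idea of the proof. The classes with an admissible discriminant correspond to isotropic vectors of the
orthogonal sum of the form `disc / 2` with the negative of the norm form `a² + a b + b²`. Given one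
isotropic vector, the reflection in a vector `z` maps it to another one; `z` is found with the Chinese
remainder theorem and Dirichlet's theorem such that the image is primitive enough at every prime and
near to a given vector at one large prime `q = 1 mod 3`. If the rank is at least three, there are
orthogonal classes `w_1`, `w_2` in the orthogonal complement of `h`; a class `w` which is near to
`w_1 + Y w_2` modulo `q`, with a large `Y`, cannot have a small discriminant, by the inequality of
Cauchy and Schwarz.

The mathematics is in the files `Pool/Agent/U141/CF/`; the local-global principle and the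
local conditions are those of `Pool/Agent/N801/CF/` of the starting repository.
-/

set_option autoImplicit false

namespace Pool.Agent.Results.MP_ffd2c1_ag.InfinitelyManyDegrees

open Pool.Agent.Y95.Q Pool.Agent.N801.CF Pool.Agent.U141.CF

/-- The admissible `d` such that the cubic fourfold lies in the Hassett divisor `C_d`: there is a
Hodge class `v` such that `h` and `v` span a saturated group of discriminant `d`. -/
def degrees {X : CubicFourfold} (H : H4 X) : Set ℤ :=
  {d | Admissible d ∧ ∃ v, H.IsHodge v ∧ H.Saturated v ∧ H.disc v = d}

/-- **No, one or infinitely many degrees.** -/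
theorem result {X : CubicFourfold} {H : H4 X} (hH : H.IsCohomology) :
    (H.HasK3 ↔ (degrees H).Nonempty) ∧
    (H.HasK3 → (H.rank = 2 ∧ ∃ d, degrees H = {d}) ∨ (3 ≤ H.rank ∧ (degrees H).Infinite)) := by
  have hne : H.HasK3 ↔ (degrees H).Nonempty := by
    constructor
    · rintro ⟨v, h1, h2, h3⟩
      exact ⟨H.disc v, h3, v, h1, h2, rfl⟩
    · rintro ⟨d, h3, v, h1, h2, rfl⟩
      exact ⟨v, h1, h2, h3⟩
  refine ⟨hne, fun hK => ?_⟩
  have h2 := ((hasK3_iff hH).1 hK).1
  rcases Nat.lt_or_ge 2 H.rank with h3 | h3
  · right
    refine ⟨h3, fun hfin => ?_⟩
    obtain ⟨D, hD⟩ := hfin.bddAbove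
    obtain ⟨w, g1, g2, g3, g4⟩ := unbounded hH hK h3 D
    have := hD (show H.disc w ∈ degrees H from ⟨g3, w, g1, g2, rfl⟩)
    omega
  · left
    have h4 : H.rank = 2 := le_antisymm h3 h2
    refine ⟨h4, ?_⟩
    obtain ⟨d, hd⟩ := hne.1 hK
    refine ⟨d, Set.eq_singleton_iff_unique_mem.2 ⟨hd, ?_⟩⟩
    rintro e ⟨he, w, g1, g2, rfl⟩
    obtain ⟨hd', v, k1, k2, rfl⟩ := hd
    have e1 := he.1
    have e2 := hd'.1
    exact unique_degree hH h4 g1 k1 g2 k2 (by omega) (by omega)

end Pool.Agent.Results.MP_ffd2c1_ag.InfinitelyManyDegrees
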