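import Pool.Agent.U199.OI.Main

/-!
# Cubic fourfolds with isometries of odd prime order have associated K3 surfaces

**Theorem.** Let `X` be a smooth cubic fourfold and `G ≠ 1` a Hodge isometry of `H^4(X, ℤ)` which
fixes `h` (for example the action of an automorphism of `X`), of odd prime order `p`. Then `X` has an
associated K3 surface, with two exceptions: `p = 3`, `G` acts nontrivially on `H^{3,1}`, and either all
invariant classes are multiples of `h` (this is so for the covering automorphisms of the
cyclic cubic fourfolds `y³ = f`, which form a family of dimension ten), or the group of the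
invariant classes has rank seven; in the second case no Hodge class has a discriminant which
is admissible at three.
-/

set_option autoImplicit false

namespace Pool.Agent.Results.MP_ffd2c1_ag.OddOrderIsometries

open Pool.Agent.Y95.Q Pool.Agent.Y95.Q.H4 Pool.Agent.N801.CF Pool.Agent.U199.CA
  Pool.Agent.U199.OI Module

theorem result {X : CubicFourfold} {H : H4 X} (hH : H.IsCohomology)
    {G : Matrix (Fin 23) (Fin 23) ℤ} (hG : IsHodgeIsometry H G) {p : ℕ} (hp : p.Prime)
    (hp2 : p ≠ 2) (hGp : G ^ p = 1) (hG1 : G ≠ 1) :
    H.HasK3 ∨ p = 3 ∧ ¬ Symplectic H G ∧ (OnlyMultiples H G ∧ finrank ℤ (inv G) = 1 ∨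
      finrank ℤ (inv G) = 7 ∧ ∀ v, H.IsHodge v → ¬ AdmissibleAt 3 (H.disc v)) :=
  or_iff_not_imp_left.2 fun h => odd_order hH hG hp hp2 hGp hG1 h

end Pool.Agent.Results.MP_ffd2c1_ag.OddOrderIsometries
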