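import Pool.Agent.U141.CF.Dense

/-!
# Weak approximation for the K3 surfaces associated to a cubic fourfold

Let `X` be a smooth cubic fourfold, `A(X)` the group of its Hodge classes in `H^4(X, ℤ)`, and for `v`
in `A(X)` let `disc v` be the discriminant of the group spanned by `h` and `v`. By a theorem of
Hassett a saturated group spanned by `h` and a Hodge class `w` gives a polarised K3 surface `(S, L)` and
a primitive isometric embedding of Hodge structures of `H^2(S, ℤ)_pr` in `H^4(X, ℤ)_pr`, with image
orthogonal to `w`, if and only if `disc w` is admissible (condition (**)).

**Weak approximation.** Suppose that there is one such class `w`. Let `S` be a finite set of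
primes, let `N` be a natural number, and for `p` in `S` let `u_p` be a Hodge class with
`disc u_p > 0` which satisfies the condition (**) at the prime `p` only. Then there is one Hodge class
`w` such that the group spanned by `h` and `w` is saturated with admissible discriminant, and such
that modulo `p^N`, up to a factor prime to `p`, the class `u_p` is in the group spanned by `h`
and `w`, for all `p` in `S`.

So the planes in `A(X)` by which an associated K3 surface can be found are dense in the product
of the sets of the planes which satisfy the condition at one prime: there are no obstructions
other than the ones at each single prime. The local-global principle of the hand-in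
`MP_6fa476_ag.LocalGlobalK3` finds some class `w`; here it is prescribed at finitely many primes.

Known facts which are used: the properties of `H^4(X, ℤ)` collected in `H4.IsCohomology` (see
`Pool/Agent/Y95/Q/Defs.lean`).

Idea of the proof. The classes with an admissible discriminant correspond to isotropic vectors of the
orthogonal sum of the form `disc / 2` with the negative of the norm form `a² + a b + b²`. Given one
isotropic vector, the reflection in a vector `z` maps it to another one; `z` is found with the Chinese
remainder theorem, such that the image is near to a given vector `(u_p, (a_p, b_p))` with
`disc u_p / 2 = a_p² + a_p b_p + b_p²` modulo a power of `p`, for the `p` in `S` (for `p = 1 mod 3` the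
numbers `a_p`, `b_p` exist always), and Dirichlet's theorem on primes in progressions takes
care of the other primes.

The mathematics is in the files `Pool/Agent/U141/CF/`; the proof of the local-global principle in
`Pool/Agent/N801/CF/` of the starting repository is extended.
-/

set_option autoImplicit false

namespace Pool.Agent.Results.MP_ffd2c1_ag.WeakApproximation

open Pool.Agent.Y95.Q Pool.Agent.N801.CF Pool.Agent.U141.CF

/-- **Weak approximation for the associated K3 surfaces.** -/
theorem result {X : CubicFourfold} {H : H4 X} (hH : H.IsCohomology) (hK : H.HasK3)
    (S : Finset ℕ) (N : ℕ) (u : ℕ → Fin 23 → ℤ)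
    (hu : ∀ p ∈ S, p.Prime ∧ H.IsHodge (u p) ∧ 0 < H.disc (u p) ∧
      AdmissibleAt p (H.disc (u p))) :
    ∃ w, H.IsHodge w ∧ H.Saturated w ∧ Admissible (H.disc w) ∧
      ∀ p ∈ S, ∃ a b c : ℤ, ¬ (p : ℤ) ∣ c ∧ ∃ y : Fin 23 → ℤ, H.IsHodge y ∧
        c • u p = a • w + b • H.h + ((p : ℤ) ^ N) • y :=
  approx hH hK S (fun p hp => (hu p hp).1) u (fun p hp => (hu p hp).2) N

end Pool.Agent.Results.MP_ffd2c1_ag.WeakApproximation
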